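import Pool.Agent.Helper48.OD.St

/-!
# Project OD, module K2V
-/

set_option autoImplicit false

namespace Pool.Agent.Helper72.OD

open Pool.Agent.Helper43.GD Pool.Agent.Helper48.OD

theorem hK2V (hDOD : StDOD) (hK2G : StK2G) (hK2T : StK2T) : StK2V := by
  intro L A _ _ Q v v' hD hv'
  have hfin : Finite L := hD.fo.fin
  have hgv := hD.fo.gd
  have hgv' : Gd Q v' := hgv.one_sub Q hv'
  have hv1 : (v : L) = 1 - (v' : L) := by rw [hv']; ring
  have hsub : ∀ R : Subring L, (v' : L) ∈ R → R = ⊤ := by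
    intro R hR
    refine (gn_iff (v : L)).1 hD.fo.gn R ?_
    rw [hv1]
    exact R.sub_mem R.one_mem hR
  obtain ⟨k1, kn, kmul, kinv, -, -⟩ := hK2G L A Q v hD
  have hKv : K2 Q v := hK2T.1 L A Q v hD v hgv hD.fo.od hD.fo.gn
  refine ⟨hKv, ?_⟩
  rcases (hDOD L A Q v hD).1 v' hgv'.1 with ho | ho
  · exact hK2T.1 L A Q v hD v' hgv' ho ((gn_iff (v' : L)).2 hsub)
  · obtain ⟨T, hT⟩ : ∃ T : Lˣ, T = v * (-v')⁻¹ := ⟨_, rfl⟩
    have hTo : Od T := by
      rw [hT]
      exact hD.fo.od.mul ho.inv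
    have hTU : T ∈ Q.U := by
      rw [hT]
      exact Q.U.mul_mem hgv.1 (Q.U.inv_mem (neg_mem Q hgv'.1))
    have h1 : ((v'⁻¹ : Lˣ) : L) = 1 - (T : L) := by
      have e1 : (T : L) = -((v : L) * ((v'⁻¹ : Lˣ) : L)) := by
        rw [hT, inv_neg]
        push_cast
        ring
      rw [e1, hv1]
      have e2 := v'.mul_inv
      linear_combination e2
    have hTg : Gd Q T := by
      refine ⟨hTU, ?_⟩
      rw [← h1]
      exact in_val Q (Q.U.inv_mem hgv'.1)
    have hTn : Gn (T : L) := by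
      rw [gn_iff]
      intro R hR
      apply hsub
      have h2 : ((v'⁻¹ : Lˣ) : L) ∈ R := by
        rw [h1]
        exact R.sub_mem R.one_mem hR
      have h3 := inv_mem R v'⁻¹ h2
      rwa [inv_inv] at h3
    have hKT : K2 Q T := hK2T.1 L A Q v hD T hTg hTo hTn
    have e : v' = -1 * (v * T⁻¹) := by
      rw [hT, mul_inv, inv_inv, mul_neg, mul_neg, neg_mul_neg, one_mul, ← mul_assoc,
        mul_inv_cancel, one_mul]
    rw [e]
    exact kmul _ _ kn (kmul _ _ hKv (kinv _ hKT))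

end Pool.Agent.Helper72.OD
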